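import Mathlib

set_option autoImplicit false

open scoped LinearAlgebra.Projectivization
open Configuration

namespace Pool.Agent.Results.MP_a51b5f_co.Superpoly

/-- The incidence graph of a point-line geometry: the bipartite graph on `P ⊕ L` in which a point and
a line are adjacent exactly when they are incident. -/
def incGraph (P L : Type) [Membership P L] : SimpleGraph (P ⊕ L) where
  Adj x y :=
    match x, y with
    | Sum.inl p, Sum.inr l => p ∈ l
    | Sum.inr l, Sum.inl p => p ∈ l
    | Sum.inl _, Sum.inl _ => False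
    | Sum.inr _, Sum.inr _ => False
  symm := ⟨by
    intro x y h
    rcases x with p | l <;> rcases y with p' | l' <;> exact h⟩
  loopless := ⟨by
    intro x h
    rcases x with p | l <;> exact h⟩

/-- `D` is a `k`-dominating independent set of the graph `G`: it spans no edge and every vertex
outside `D` has at least `k` neighbours in `D`. -/
def IsKDIS {V : Type} (G : SimpleGraph V) (k : ℕ) (D : Set V) : Prop :=
  (∀ u ∈ D, ∀ v ∈ D, ¬ G.Adj u v) ∧ ∀ v, v ∉ D → k ≤ (G.neighborSet v ∩ D).ncard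

section Denniston

variable {K : Type} [Field K] [Fintype K] [CharP K 2]

/-- the quadratic form `x² + x y + δ y²` -/
def Q (δ : K) (v : K × K) : K := v.1 ^ 2 + v.1 * v.2 + δ * v.2 ^ 2

omit [Fintype K] [CharP K 2] in
theorem Q_smul (δ s : K) (v : K × K) : Q δ (s • v) = s ^ 2 * Q δ v := by
  simp only [Q, Prod.smul_fst, Prod.smul_snd, smul_eq_mul]; ring

omit [Fintype K] in
theorem Q_eq_zero {δ : K} (hδ : ∀ u : K, u ^ 2 + u ≠ δ) {v : K × K} (h : Q δ v = 0) : v = 0 := by
  have h2 : (2 : K) = 0 := CharTwo.two_eq_zero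
  by_cases hy : v.2 = 0
  · have : v.1 ^ 2 = 0 := by simpa [Q, hy] using h
    ext
    · simpa using this
    · simpa using hy
  · exfalso
    apply hδ (v.1 / v.2)
    have h3 : (v.1 / v.2) ^ 2 + v.1 / v.2 + δ = 0 := by
      field_simp
      have h' : v.1 ^ 2 + v.1 * v.2 + δ * v.2 ^ 2 = 0 := h
      linear_combination h'
    have : (v.1 / v.2) ^ 2 + v.1 / v.2 = - δ := by linear_combination h3
    rw [this]
    linear_combination (-δ) * h2

/-- affine points as points of the projective plane -/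
def iota (v : K × K) : ℙ K (Fin 3 → K) :=
  Projectivization.mk K ![v.1, v.2, 1] (by
    intro h
    have := congrFun h 2
    simp at this)

omit [Fintype K] [CharP K 2] in
theorem iota_injective : Function.Injective (iota : K × K → ℙ K (Fin 3 → K)) := by
  intro v w h
  unfold iota at h
  rw [Projectivization.mk_eq_mk_iff'] at h
  obtain ⟨a, ha⟩ := h
  have h0 := congrFun ha 0
  have h1 := congrFun ha 1
  have h2 := congrFun ha 2
  simp at h0 h1 h2
  subst h2
  ext
  · simpa using h0.symm
  · simpa using h1.symm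

omit [Fintype K] [CharP K 2] in
theorem iota_mem_mk (v : K × K) (w : Fin 3 → K) (hw : w ≠ 0) :
    iota v ∈ (Projectivization.mk K w hw : ℙ K (Fin 3 → K)) ↔
      v.1 * w 0 + v.2 * w 1 + w 2 = 0 := by
  unfold iota
  rw [ofField.mem_iff, Projectivization.orthogonal_mk]
  simp [dotProduct, Fin.sum_univ_three]

/-- affine part of the arc -/
def A0 (δ : K) (H : AddSubgroup K) : Set (K × K) := {v | Q δ v ∈ H}

/-- the arc -/
def A (δ : K) (H : AddSubgroup K) : Set (ℙ K (Fin 3 → K)) := iota '' A0 δ H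

/-- lines missing the arc -/
def B (δ : K) (H : AddSubgroup K) : Set (ℙ K (Fin 3 → K)) := {l | ∀ p ∈ A δ H, p ∉ l}

/-- the set of vertices -/
def D (δ : K) (H : AddSubgroup K) : Set (ℙ K (Fin 3 → K) ⊕ ℙ K (Fin 3 → K)) :=
  Sum.inl '' A δ H ∪ Sum.inr '' B δ H

omit [CharP K 2] in
theorem card_comap_ge (L : K →+ K) (H : AddSubgroup K) :
    Nat.card H ≤ Nat.card (H.comap L) := by
  have h1 := (H.comap L).card_mul_index
  have h2 := H.card_mul_index
  have h3 : (H.comap L).index ≤ H.index := by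
    rw [AddSubgroup.index_comap]
    exact Nat.le_of_dvd (Nat.pos_of_ne_zero AddSubgroup.index_ne_zero_of_finite)
      (AddSubgroup.relIndex_dvd_index_of_normal _ _)
  have h4 : 0 < H.index := Nat.pos_of_ne_zero AddSubgroup.index_ne_zero_of_finite
  have h5 : Nat.card H * H.index ≤ Nat.card (H.comap L) * H.index := by
    rw [h2, ← h1]
    exact Nat.mul_le_mul_left _ h3
  exact Nat.le_of_mul_le_mul_right h5 h4

/-- Every line that meets the arc meets it in at least `|H|` points. -/
theorem card_line_inter (δ : K) (H : AddSubgroup K) (l : ℙ K (Fin 3 → K))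
    (hl : l ∉ B δ H) : Nat.card H ≤ ({p | p ∈ A δ H ∧ p ∈ l} : Set (ℙ K (Fin 3 → K))).ncard := by
  classical
  simp only [B, Set.mem_ofPred_eq, not_forall, not_not] at hl
  obtain ⟨p, hpA, hpl⟩ := hl
  obtain ⟨v, hv, rfl⟩ := hpA
  induction l using Projectivization.ind with
  | h w hw =>
  rw [iota_mem_mk] at hpl
  set a := w 0 with ha
  set b := w 1 with hb
  set c := w 2 with hc
  have hab : a ≠ 0 ∨ b ≠ 0 := by
    by_contra hcon
    push Not at hcon
    apply hw
    have hc0 : c = 0 := by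
      have := hpl
      rw [hcon.1, hcon.2] at this
      simpa using this
    funext i
    fin_cases i
    · simpa using hcon.1
    · simpa using hcon.2
    · simpa using hc0
  -- the additive map
  let L : K →+ K :=
    { toFun := fun s => s * (v.1 * a + v.2 * b) + s ^ 2 * Q δ (b, a)
      map_zero' := by simp
      map_add' := by
        intro s t
        have : (s + t) ^ 2 = s ^ 2 + t ^ 2 := CharTwo.add_sq s t
        rw [this]; ring }
  have h2 : (2 : K) = 0 := CharTwo.two_eq_zero
  have hQ : ∀ s : K, Q δ (v.1 + s * b, v.2 + s * a) = Q δ v + L s := by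
    intro s
    simp only [Q, L, AddMonoidHom.coe_mk, ZeroHom.coe_mk]
    linear_combination (s * v.1 * b + δ * v.2 * s * a) * h2
  have key : Nat.card H ≤ Nat.card (H.comap L) := card_comap_ge L H
  refine key.trans ?_
  rw [← Nat.card_coe_set_eq ({p | p ∈ A δ H ∧ p ∈ _})]
  let f : H.comap L → ({p | p ∈ A δ H ∧ p ∈ Projectivization.mk K w hw} : Set (ℙ K (Fin 3 → K))) :=
    fun s => ⟨iota (v.1 + s.1 * b, v.2 + s.1 * a), by
      refine ⟨⟨_, ?_, rfl⟩, ?_⟩
      · show Q δ _ ∈ H
        rw [hQ]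
        exact H.add_mem hv s.2
      · rw [iota_mem_mk]
        show (v.1 + s.1 * b) * a + (v.2 + s.1 * a) * b + c = 0
        linear_combination hpl + (s.1 * a * b) * h2⟩
  have hf : Function.Injective f := by
    intro s t hst
    have h := iota_injective (Subtype.ext_iff.mp hst)
    have e1 := congrArg Prod.fst h
    have e2 := congrArg Prod.snd h
    simp only [add_right_inj] at e1 e2
    apply Subtype.ext
    rcases hab with h0 | h0
    · exact mul_right_cancel₀ h0 e2
    · exact mul_right_cancel₀ h0 e1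
  exact Nat.card_le_card_of_injective f hf


theorem sq_bijective : Function.Bijective (fun s : K => s ^ 2) := by
  rw [← Finite.injective_iff_bijective]
  intro a b hab
  have h2 : (2 : K) = 0 := CharTwo.two_eq_zero
  have : (a - b) ^ 2 = 0 := by
    have hab' : a ^ 2 = b ^ 2 := hab
    linear_combination hab' + (b ^ 2 - a * b) * h2
  have := pow_eq_zero_iff (two_ne_zero) |>.mp this
  exact sub_eq_zero.mp this

/-- number of nonzero vectors with value in `H` -/
theorem count_nonzero {δ : K} (hδ : ∀ u : K, u ^ 2 + u ≠ δ) (H : AddSubgroup K) :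
    (Nat.card K - 1) * ({v : K × K | v ≠ 0 ∧ Q δ v ∈ H}).ncard =
      (Nat.card K ^ 2 - 1) * (Nat.card H - 1) := by
  classical
  have hT : ({v : K × K | v ≠ 0 ∧ Q δ v ∈ H}).ncard =
      (Finset.univ.filter (fun v : K × K => v ≠ 0 ∧ Q δ v ∈ H)).card := by
    rw [← Set.ncard_coe_finset]
    congr 1
    ext v
    simp
  have hS : (Finset.univ.filter (fun v : K × K => v ≠ 0)).card = Nat.card K ^ 2 - 1 := by
    rw [Finset.filter_ne' Finset.univ 0, Finset.card_erase_of_mem (Finset.mem_univ _),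
      Finset.card_univ, Fintype.card_prod, Nat.card_eq_fintype_card, sq]
  have hU : (Finset.univ : Finset Kˣ).card = Nat.card K - 1 := by
    rw [Finset.card_univ, Fintype.card_units, Nat.card_eq_fintype_card]
  have e1 : ∀ s : Kˣ, (∑ v ∈ Finset.univ.filter (fun v : K × K => v ≠ 0),
      if Q δ ((s : K) • v) ∈ H then 1 else 0) =
      (Finset.univ.filter (fun v : K × K => v ≠ 0 ∧ Q δ v ∈ H)).card := by
    intro s
    rw [← Finset.card_filter, Finset.filter_filter]
    refine Finset.card_bij (fun v _ => (s : K) • v) ?_ ?_ ?_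
    · intro v hv
      simp only [Finset.mem_filter, Finset.mem_univ, true_and] at hv ⊢
      exact ⟨smul_ne_zero s.ne_zero hv.1, hv.2⟩
    · intro v _ w _ h
      exact smul_right_injective _ s.ne_zero h
    · intro w hw
      simp only [Finset.mem_filter, Finset.mem_univ, true_and] at hw
      have hs : (s : K) • ((s⁻¹ : Kˣ) : K) • w = w := by
        rw [smul_smul, Units.mul_inv, one_smul]
      refine ⟨((s⁻¹ : Kˣ) : K) • w, ?_, hs⟩
      simp only [Finset.mem_filter, Finset.mem_univ, true_and]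
      refine ⟨smul_ne_zero (Units.ne_zero _) hw.1, ?_⟩
      rw [hs]; exact hw.2
  have e2 : ∀ v ∈ Finset.univ.filter (fun v : K × K => v ≠ 0),
      (∑ s : Kˣ, if Q δ ((s : K) • v) ∈ H then 1 else 0) = Nat.card H - 1 := by
    intro v hv
    have hv0 : v ≠ 0 := by simpa using hv
    have hq : Q δ v ≠ 0 := fun h => hv0 (Q_eq_zero hδ h)
    rw [← Finset.card_filter]
    have hH : Nat.card H - 1 = ((Finset.univ.filter (fun x : K => x ∈ H)).erase 0).card := by
      rw [Finset.card_erase_of_mem (by simp [H.zero_mem])]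
      congr 1
      rw [Nat.card_eq_fintype_card, Fintype.card_subtype]
    rw [hH]
    refine Finset.card_bij (fun s _ => (s : K) ^ 2 * Q δ v) ?_ ?_ ?_
    · intro s hs
      simp only [Finset.mem_filter, Finset.mem_univ, true_and, Q_smul] at hs
      simp only [Finset.mem_erase, Finset.mem_filter, Finset.mem_univ, true_and]
      exact ⟨mul_ne_zero (pow_ne_zero _ s.ne_zero) hq, hs⟩
    · intro s _ t _ h
      have h1 : (s : K) ^ 2 = (t : K) ^ 2 := mul_right_cancel₀ hq h
      exact Units.ext (sq_bijective.1 h1)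
    · intro x hx
      simp only [Finset.mem_erase, Finset.mem_filter, Finset.mem_univ, true_and] at hx
      obtain ⟨s, hs⟩ := sq_bijective.2 (x / Q δ v)
      have hs' : s ^ 2 = x / Q δ v := hs
      have hs0 : s ≠ 0 := by
        intro h0
        rw [h0] at hs'
        have : x / Q δ v = 0 := by rw [← hs']; simp
        rcases div_eq_zero_iff.mp this with h | h
        · exact hx.1 h
        · exact hq h
      have hsx : s ^ 2 * Q δ v = x := by
        rw [hs']; field_simp
      refine ⟨Units.mk0 s hs0, ?_, by simpa using hsx⟩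
      simp only [Finset.mem_filter, Finset.mem_univ, true_and, Q_smul, Units.val_mk0]
      rw [hsx]; exact hx.2
  calc (Nat.card K - 1) * ({v : K × K | v ≠ 0 ∧ Q δ v ∈ H}).ncard
      = ∑ s : Kˣ, (∑ v ∈ Finset.univ.filter (fun v : K × K => v ≠ 0),
          if Q δ ((s : K) • v) ∈ H then 1 else 0) := by
        rw [Finset.sum_congr rfl (fun s _ => e1 s), Finset.sum_const, hU, hT, smul_eq_mul]
    _ = ∑ v ∈ Finset.univ.filter (fun v : K × K => v ≠ 0),
          (∑ s : Kˣ, if Q δ ((s : K) • v) ∈ H then 1 else 0) := Finset.sum_comm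
    _ = (Nat.card K ^ 2 - 1) * (Nat.card H - 1) := by
        rw [Finset.sum_congr rfl e2, Finset.sum_const, hS, smul_eq_mul]

/-- The arc has `t q + t - q` points. -/
theorem card_A {δ : K} (hδ : ∀ u : K, u ^ 2 + u ≠ δ) (H : AddSubgroup K) :
    (A δ H).ncard + Nat.card K = Nat.card H * (Nat.card K + 1) := by
  have h1 : (A δ H).ncard = (A0 δ H).ncard := Set.ncard_image_of_injective _ iota_injective
  have h2 : A0 δ H = insert 0 {v : K × K | v ≠ 0 ∧ Q δ v ∈ H} := by
    ext v
    simp only [A0, Set.mem_ofPred_eq, Set.mem_insert_iff]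
    constructor
    · intro h
      by_cases hv : v = 0
      · exact Or.inl hv
      · exact Or.inr ⟨hv, h⟩
    · rintro (h | h)
      · subst h
        have : Q δ (0 : K × K) = 0 := by simp [Q]
        rw [this]; exact H.zero_mem
      · exact h.2
  have h3 : (A0 δ H).ncard = ({v : K × K | v ≠ 0 ∧ Q δ v ∈ H}).ncard + 1 := by
    rw [h2, Set.ncard_insert_of_notMem]
    simp
  have h4 := count_nonzero hδ H
  have hK : 1 < Nat.card K := Finite.one_lt_card
  have hH : 0 < Nat.card H := Nat.card_pos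
  rw [h1, h3]
  generalize ({v : K × K | v ≠ 0 ∧ Q δ v ∈ H}).ncard = N at h4 ⊢
  generalize Nat.card K = q at h4 hK ⊢
  generalize Nat.card H = t at h4 hH ⊢
  obtain ⟨r, rfl⟩ : ∃ r, q = r + 2 := ⟨q - 2, by omega⟩
  obtain ⟨u, rfl⟩ : ∃ u, t = u + 1 := ⟨t - 1, by omega⟩
  have h5 : (r + 2) ^ 2 - 1 = (r + 1) * (r + 3) := by
    have : (r + 2) ^ 2 = (r + 1) * (r + 3) + 1 := by ring
    omega
  rw [h5] at h4
  simp only [Nat.add_sub_cancel] at h4
  have h6 : (r + 1) * N = (r + 1) * ((r + 3) * u) := by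
    have : r + 2 - 1 = r + 1 := by omega
    rw [this] at h4
    rw [h4]; ring
  have h7 : N = (r + 3) * u := Nat.eq_of_mul_eq_mul_left (by omega) h6
  rw [h7]; ring

open Classical in
omit [CharP K 2] in
theorem order_eq : ProjectivePlane.order (ℙ K (Fin 3 → K)) (ℙ K (Fin 3 → K)) = Nat.card K := by
  have : Fintype (ℙ K (Fin 3 → K)) := Fintype.ofFinite _
  have h1 := ProjectivePlane.card_points (ℙ K (Fin 3 → K)) (ℙ K (Fin 3 → K))
  have h2 : Nat.card (ℙ K (Fin 3 → K)) = _ :=
    Projectivization.card_of_finrank K (Fin 3 → K) (n := 3) (by simp)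
  rw [Nat.card_eq_fintype_card, h1, Finset.sum_range_succ, Finset.sum_range_succ,
    Finset.sum_range_one] at h2
  generalize ProjectivePlane.order (ℙ K (Fin 3 → K)) (ℙ K (Fin 3 → K)) = a at h2 ⊢
  generalize Nat.card K = b at h2 ⊢
  rcases lt_trichotomy a b with h | h | h
  · nlinarith
  · exact h
  · nlinarith

open Classical in
/-- through every point off the arc there are at least `q / t` lines missing the arc. -/
theorem card_external {δ : K} (hδ : ∀ u : K, u ^ 2 + u ≠ δ) (H : AddSubgroup K)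
    (p : ℙ K (Fin 3 → K)) (hp : p ∉ A δ H) :
    Nat.card K ≤ Nat.card H * ({l | l ∈ B δ H ∧ p ∈ l} : Set (ℙ K (Fin 3 → K))).ncard := by
  have hcA := card_A hδ H
  have : Fintype (ℙ K (Fin 3 → K)) := Fintype.ofFinite _
  set q := Nat.card K with hq
  set t := Nat.card H with ht
  -- lines through p
  let Lp : Finset (ℙ K (Fin 3 → K)) := Finset.univ.filter (fun l => p ∈ l)
  let AF : Finset (ℙ K (Fin 3 → K)) := Finset.univ.filter (fun a => a ∈ A δ H)
  let Ext : Finset (ℙ K (Fin 3 → K)) := Lp.filter (fun l => l ∈ B δ H)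
  let Sec : Finset (ℙ K (Fin 3 → K)) := Lp.filter (fun l => l ∉ B δ H)
  have hLp : Lp.card = q + 1 := by
    have h := ProjectivePlane.lineCount_eq (L := ℙ K (Fin 3 → K)) p
    rw [order_eq] at h
    rw [← h, lineCount, Nat.card_eq_fintype_card, Fintype.card_subtype]
  have hsplit : Ext.card + Sec.card = q + 1 := by
    rw [← hLp]
    exact Finset.card_filter_add_card_filter_not _
  have hAF : AF.card = (A δ H).ncard := by
    rw [← Set.ncard_coe_finset]
    congr 1
    ext v
    simp [AF]
  have hExt : Ext.card = ({l | l ∈ B δ H ∧ p ∈ l} : Set (ℙ K (Fin 3 → K))).ncard := by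
    rw [← Set.ncard_coe_finset]
    congr 1
    ext v
    simp [Ext, Lp, and_comm]
  -- double counting
  have hdc : t * Sec.card ≤ AF.card := by
    have h1 : ∀ l ∈ Sec, t ≤ (AF.filter (fun a => a ∈ l)).card := by
      intro l hl
      have hlB : l ∉ B δ H := by
        simp only [Sec, Finset.mem_filter] at hl
        exact hl.2
      have := card_line_inter δ H l hlB
      refine this.trans (le_of_eq ?_)
      rw [← Set.ncard_coe_finset]
      congr 1
      ext v
      simp [AF]
    have h2 : ∑ l ∈ Sec, (AF.filter (fun a => a ∈ l)).card =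
        ∑ a ∈ AF, (Sec.filter (fun l => a ∈ l)).card :=
      Finset.sum_card_bipartiteAbove_eq_sum_card_bipartiteBelow (fun l a => a ∈ l)
    have h3 : ∀ a ∈ AF, (Sec.filter (fun l => a ∈ l)).card ≤ 1 := by
      intro a ha
      rw [Finset.card_le_one]
      intro l hl m hm
      simp only [Sec, Lp, Finset.mem_filter, Finset.mem_univ, true_and] at hl hm
      have hne : a ≠ p := by
        rintro rfl
        apply hp
        simpa [AF] using ha
      exact (Nondegenerate.eq_or_eq hl.2 hl.1.1 hm.2 hm.1.1).resolve_left hne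
    calc t * Sec.card = ∑ l ∈ Sec, t := by rw [Finset.sum_const, smul_eq_mul, mul_comm]
      _ ≤ ∑ l ∈ Sec, (AF.filter (fun a => a ∈ l)).card := Finset.sum_le_sum h1
      _ = ∑ a ∈ AF, (Sec.filter (fun l => a ∈ l)).card := h2
      _ ≤ ∑ a ∈ AF, 1 := Finset.sum_le_sum h3
      _ = AF.card := by simp
  rw [← hExt]
  rw [← hAF] at hcA
  nlinarith


/-- The points of the arc together with the lines missing it form a `k`-DIS as soon as
`k ≤ |H|` and `k |H| ≤ q`. -/
theorem isKDIS_D {δ : K} (hδ : ∀ u : K, u ^ 2 + u ≠ δ) (H : AddSubgroup K) {k : ℕ}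
    (hk : k ≤ Nat.card H) (hk' : Nat.card H * k ≤ Nat.card K) :
    IsKDIS (incGraph (ℙ K (Fin 3 → K)) (ℙ K (Fin 3 → K))) k (D δ H) := by
  classical
  constructor
  · rintro u (⟨p, hp, rfl⟩ | ⟨l, hl, rfl⟩) v (⟨p', hp', rfl⟩ | ⟨l', hl', rfl⟩)
    · exact fun h => h
    · exact fun h => hl' p hp h
    · exact fun h => hl p' hp' h
    · exact fun h => h
  · rintro (p | l) hv
    · have hp : p ∉ A δ H := fun h => hv (Or.inl ⟨p, h, rfl⟩)
      have h1 := card_external hδ H p hp
      have hsub : Sum.inr '' ({l | l ∈ B δ H ∧ p ∈ l} : Set (ℙ K (Fin 3 → K))) ⊆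
          (incGraph (ℙ K (Fin 3 → K)) (ℙ K (Fin 3 → K))).neighborSet (Sum.inl p) ∩ D δ H := by
        rintro _ ⟨l, hl, rfl⟩
        exact ⟨hl.2, Or.inr ⟨l, hl.1, rfl⟩⟩
      have h2 := Set.ncard_le_ncard hsub (Set.toFinite _)
      rw [Set.ncard_image_of_injective _ Sum.inr_injective] at h2
      refine le_trans ?_ h2
      have h3 := hk'.trans h1
      exact Nat.le_of_mul_le_mul_left h3 Nat.card_pos
    · have hl : l ∉ B δ H := fun h => hv (Or.inr ⟨l, h, rfl⟩)
      have h1 := card_line_inter δ H l hl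
      have hsub : Sum.inl '' ({p | p ∈ A δ H ∧ p ∈ l} : Set (ℙ K (Fin 3 → K))) ⊆
          (incGraph (ℙ K (Fin 3 → K)) (ℙ K (Fin 3 → K))).neighborSet (Sum.inr l) ∩ D δ H := by
        rintro _ ⟨p, hp, rfl⟩
        exact ⟨hp.2, Or.inl ⟨p, hp.1, rfl⟩⟩
      have h2 := Set.ncard_le_ncard hsub (Set.toFinite _)
      rw [Set.ncard_image_of_injective _ Sum.inl_injective] at h2
      exact hk.trans (h1.trans h2)

theorem D_injective (δ : K) : Function.Injective (D δ) := by
  intro H H' h
  have hA : A δ H = A δ H' := by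
    ext p
    have : (Sum.inl p : ℙ K (Fin 3 → K) ⊕ ℙ K (Fin 3 → K)) ∈ D δ H ↔ Sum.inl p ∈ D δ H' := by
      rw [h]
    simpa [D] using this
  have hA0 : A0 δ H = A0 δ H' := iota_injective.image_injective hA
  ext c
  obtain ⟨s, hs⟩ := sq_bijective.2 c
  have hs' : s ^ 2 = c := hs
  have hQ : Q δ (s, 0) = c := by simp [Q, hs']
  have : (s, (0 : K)) ∈ A0 δ H ↔ (s, (0 : K)) ∈ A0 δ H' := by rw [hA0]
  simpa [A0, hQ] using this

theorem exists_delta : ∃ δ : K, ∀ u : K, u ^ 2 + u ≠ δ := by
  by_contra hcon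
  push Not at hcon
  have hs : Function.Surjective (fun u : K => u ^ 2 + u) := hcon
  have hi : Function.Injective (fun u : K => u ^ 2 + u) := Finite.injective_iff_surjective.mpr hs
  have h2 : (2 : K) = 0 := CharTwo.two_eq_zero
  have : (0 : K) = 1 := hi (by
    show (0 : K) ^ 2 + 0 = 1 ^ 2 + 1
    linear_combination (-1) * h2)
  exact zero_ne_one this

end Denniston


/-- Many additive subgroups of order `2 ^ m` in a group of order `4 ^ m`. -/
theorem many_subgroups (m : ℕ) (V : Type) [AddCommGroup V] [Module (ZMod 2) V]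
    [Finite V] (hV : Module.finrank (ZMod 2) V = m + m) :
    2 ^ (m * m) ≤ ({H : AddSubgroup V | Nat.card H = 2 ^ m}).ncard := by
  classical
  have e : V ≃ₗ[ZMod 2] ((Fin m → ZMod 2) × (Fin m → ZMod 2)) :=
    LinearEquiv.ofFinrankEq _ _ (by simp [hV])
  let F : ((Fin m → ZMod 2) →ₗ[ZMod 2] (Fin m → ZMod 2)) → AddSubgroup V := fun f =>
    (f.graph.comap (e : V →ₗ[ZMod 2] _)).toAddSubgroup
  have hF : Function.Injective F := by
    intro f g hfg
    have h1 : f.graph.comap (e : V →ₗ[ZMod 2] _) = g.graph.comap (e : V →ₗ[ZMod 2] _) :=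
      Submodule.toAddSubgroup_injective hfg
    apply LinearMap.ext
    intro x
    have h2 : e.symm (x, f x) ∈ f.graph.comap (e : V →ₗ[ZMod 2] _) := by simp
    rw [h1] at h2
    simpa using h2
  have hcard : ∀ f, Nat.card (F f) = 2 ^ m := by
    intro f
    have h1 : Nat.card (F f) = Nat.card (Fin m → ZMod 2) := by
      refine Nat.card_congr ?_
      exact
        { toFun := fun v => (e v.1).1
          invFun := fun x => ⟨e.symm (x, f x), by
            show e.symm (x, f x) ∈ f.graph.comap (e : V →ₗ[ZMod 2] _)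
            simp⟩
          left_inv := by
            rintro ⟨v, hv⟩
            apply Subtype.ext
            have hv' : v ∈ f.graph.comap (e : V →ₗ[ZMod 2] _) := hv
            simp only [Submodule.mem_comap, LinearEquiv.coe_coe, LinearMap.mem_graph_iff] at hv'
            show e.symm ((e v).1, f (e v).1) = v
            rw [← hv']
            simp
          right_inv := by
            intro x
            simp }
    rw [h1]
    simp
  have hrange : Set.range F ⊆ {H : AddSubgroup V | Nat.card H = 2 ^ m} := by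
    rintro _ ⟨f, rfl⟩
    exact hcard f
  have h2 := Set.ncard_le_ncard hrange (Set.toFinite _)
  have h3 : (Set.range F).ncard = Nat.card ((Fin m → ZMod 2) →ₗ[ZMod 2] (Fin m → ZMod 2)) := by
    rw [← Set.image_univ, Set.ncard_image_of_injective _ hF, Set.ncard_univ]
  have h4 : Nat.card ((Fin m → ZMod 2) →ₗ[ZMod 2] (Fin m → ZMod 2)) = 2 ^ (m * m) := by
    rw [Nat.card_congr (LinearMap.toMatrix' (R := ZMod 2) (n := Fin m) (m := Fin m)).toEquiv]
    rw [← Nat.card_congr (Matrix.of (m := Fin m) (n := Fin m) (α := ZMod 2))]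
    simp [pow_mul]
  rw [h3, h4] at h2
  exact h2

/-- **Main theorem.** For every fixed `k ≥ 1` the number of `k`-dominating independent sets of
incidence graphs of finite projective planes is not bounded by a polynomial in the number of
vertices. -/
theorem result (k : ℕ) (_hk : 1 ≤ k) :
    ¬ ∃ C c : ℝ, 0 < C ∧ 0 < c ∧
      ∀ (P L : Type) [Finite P] [Finite L] [Membership P L] [ProjectivePlane P L],
        (({D : Set (P ⊕ L) | IsKDIS (incGraph P L) k D}).ncard : ℝ) ≤
          C * (Nat.card (P ⊕ L) : ℝ) ^ c := by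
  classical
  rintro ⟨C, c, hC, hc, hbound⟩
  obtain ⟨c', hc'⟩ := exists_nat_ge c
  obtain ⟨a, ha⟩ := pow_unbounded_of_one_lt C (one_lt_two)
  set m : ℕ := 7 * c' + a + k + 1 with hm
  have hm0 : m + m ≠ 0 := by omega
  let K := GaloisField 2 (m + m)
  have : Fintype K := Fintype.ofFinite K
  have hKcard : Nat.card K = 2 ^ (m + m) := GaloisField.card 2 (m + m) hm0
  obtain ⟨δ, hδ⟩ := exists_delta (K := K)
  have hb := hbound (ℙ K (Fin 3 → K)) (ℙ K (Fin 3 → K))
  have hsubg := many_subgroups m K (GaloisField.finrank 2 hm0)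
  have hk2 : k ≤ 2 ^ m := by
    have : m < 2 ^ m := Nat.lt_two_pow_self
    omega
  have hmaps : D δ '' {H : AddSubgroup K | Nat.card H = 2 ^ m} ⊆
      {D : Set (ℙ K (Fin 3 → K) ⊕ ℙ K (Fin 3 → K)) | IsKDIS (incGraph _ _) k D} := by
    rintro _ ⟨H, hH, rfl⟩
    have hH' : Nat.card H = 2 ^ m := hH
    refine isKDIS_D hδ H (by rw [hH']; exact hk2) ?_
    rw [hH', hKcard, pow_add 2 m m]
    exact Nat.mul_le_mul_left _ hk2
  have hle := Set.ncard_le_ncard hmaps (Set.toFinite _)
  rw [Set.ncard_image_of_injective _ (D_injective δ)] at hle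
  have hlow := hsubg.trans hle
  -- number of vertices
  have hn : Nat.card (ℙ K (Fin 3 → K) ⊕ ℙ K (Fin 3 → K)) ≤ 2 ^ (7 * m) := by
    have h1 : Nat.card (ℙ K (Fin 3 → K)) = _ :=
      Projectivization.card_of_finrank K (Fin 3 → K) (n := 3) (by simp)
    rw [Finset.sum_range_succ, Finset.sum_range_succ, Finset.sum_range_one] at h1
    rw [Nat.card_sum, h1, hKcard]
    have h3 : 1 ≤ 2 ^ (m + m) := Nat.one_le_two_pow
    have h4 : (2 ^ (m + m)) ^ 2 = 2 ^ (4 * m) := by rw [← pow_mul]; congr 1; ring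
    have h5 : 2 ^ (m + m) ≤ 2 ^ (4 * m) := Nat.pow_le_pow_right (by norm_num) (by omega)
    have h6 : 2 ^ (7 * m) = 2 ^ (4 * m) * 2 ^ (3 * m) := by rw [← pow_add]; congr 1; ring
    have h7 : 2 ^ 3 ≤ 2 ^ (3 * m) := Nat.pow_le_pow_right (by norm_num) (by omega)
    rw [pow_zero, pow_one, h4, h6]
    nlinarith
  have hn1 : 1 ≤ Nat.card (ℙ K (Fin 3 → K) ⊕ ℙ K (Fin 3 → K)) := Nat.card_pos
  have hup : C * (Nat.card (ℙ K (Fin 3 → K) ⊕ ℙ K (Fin 3 → K)) : ℝ) ^ c <
      (2 : ℝ) ^ (m * m) := by
    have h1 : (Nat.card (ℙ K (Fin 3 → K) ⊕ ℙ K (Fin 3 → K)) : ℝ) ^ c ≤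
        (Nat.card (ℙ K (Fin 3 → K) ⊕ ℙ K (Fin 3 → K)) : ℝ) ^ (c' : ℝ) :=
      Real.rpow_le_rpow_of_exponent_le (by exact_mod_cast hn1) hc'
    rw [Real.rpow_natCast] at h1
    have h2 : (Nat.card (ℙ K (Fin 3 → K) ⊕ ℙ K (Fin 3 → K)) : ℝ) ^ c' ≤
        ((2 : ℝ) ^ (7 * m)) ^ c' :=
      pow_le_pow_left₀ (by positivity) (by exact_mod_cast hn) _
    calc C * (Nat.card (ℙ K (Fin 3 → K) ⊕ ℙ K (Fin 3 → K)) : ℝ) ^ c
        ≤ C * ((2 : ℝ) ^ (7 * m)) ^ c' := by
          exact mul_le_mul_of_nonneg_left (h1.trans h2) hC.le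
      _ < 2 ^ a * ((2 : ℝ) ^ (7 * m)) ^ c' := by
          exact mul_lt_mul_of_pos_right ha (by positivity)
      _ = (2 : ℝ) ^ (a + 7 * m * c') := by rw [← pow_mul, ← pow_add]
      _ ≤ (2 : ℝ) ^ (m * m) := by
          apply pow_le_pow_right₀ (by norm_num)
          have : m * m = m * (7 * c') + m * (a + k + 1) := by rw [hm]; ring
          nlinarith
  have hlow' : ((2 : ℝ) ^ (m * m)) ≤
      (({D : Set (ℙ K (Fin 3 → K) ⊕ ℙ K (Fin 3 → K)) |
        IsKDIS (incGraph _ _) k D}).ncard : ℝ) := by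
    exact_mod_cast hlow
  linarith [hlow', hup, hb]

end Pool.Agent.Results.MP_a51b5f_co.Superpoly
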